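import Pool.Agent.Y271.RO.Stm

/-!
# Project RO (helper271), part TEST: test vectors
-/

set_option autoImplicit false

namespace Pool.Agent.Y528.RO

open MeasureTheory Set Metric Filter Topology
open scoped InnerProductSpace ENNReal NNReal ComplexConjugate ContDiff
open Pool.Agent.Y283.NK (ct)
open Pool.Agent.Y271.RO

/-- a point of the essential range of `φ` on the support of `u` -/
theorem exists_pt {S : Type} [MeasurableSpace S] (μ : Measure S) (φ : S → ℂ) (M : ℝ)
    (hM : ∀ s, ‖φ s‖ ≤ M) (u : S → ℂ) (hu : ¬ ∀ᵐ s ∂μ, u s = 0) :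
    ∃ l : ℂ, ∀ t : ℝ, 0 < t → ¬ ∀ᵐ s ∂μ, φ s ∈ ball l t → u s = 0 := by
  by_contra hcon
  push Not at hcon
  choose T hT0 hT using hcon
  obtain ⟨F, -, hF⟩ := (isCompact_closedBall (0 : ℂ) M).elim_nhds_subcover
    (fun l => ball l (T l)) (fun l _ => ball_mem_nhds l (hT0 l))
  apply hu
  have h1 : ∀ᵐ s ∂μ, ∀ l ∈ F, φ s ∈ ball l (T l) → u s = 0 :=
    (Filter.eventually_all_finset F).2 fun l _ => hT l
  filter_upwards [h1] with s hs
  have h2 : φ s ∈ closedBall (0 : ℂ) M := by
    rw [mem_closedBall, dist_zero_right]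
    exact hM s
  obtain ⟨l, hl, h3⟩ := mem_iUnion₂.1 (hF h2)
  exact hs l hl h3

theorem re_pos {z l w : ℂ} {t : ℝ} (hz : 2 * t ≤ ‖z - l‖) (hw : ‖w - l‖ < t) :
    0 < ((z - l) * (z - w)⁻¹).re := by
  have h1 : t < ‖z - w‖ := by
    have : ‖z - l‖ ≤ ‖z - w‖ + ‖w - l‖ := by
      have e : z - l = (z - w) + (w - l) := by ring
      rw [e]
      exact norm_add_le _ _
    linarith
  have ht : 0 < t := (norm_nonneg _).trans_lt hw
  have hne : z - w ≠ 0 := by
    intro h
    rw [h, norm_zero] at h1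
    linarith
  have h2 : (z - l) * (z - w)⁻¹ = 1 + (w - l) * (z - w)⁻¹ := by
    field_simp
    ring
  have h3 : ‖(w - l) * (z - w)⁻¹‖ < 1 := by
    rw [norm_mul, norm_inv, ← div_eq_mul_inv, div_lt_one (by linarith)]
    linarith
  rw [h2, Complex.add_re, Complex.one_re]
  have h4 := Complex.abs_re_le_norm ((w - l) * (z - w)⁻¹)
  have h5 := neg_abs_le ((w - l) * (z - w)⁻¹).re
  linarith

theorem main : S_TEST := by
  rintro S _ μ _ φ hφ ⟨M, hM⟩ u hu
  have hu' : ¬ ∀ᵐ s ∂μ, u s = 0 := fun h => hu ((Lp.eq_zero_iff_ae_eq_zero).2 h)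
  obtain ⟨l, hl⟩ := exists_pt μ φ M hM u hu'
  refine ⟨l, fun t ht => ?_⟩
  set A : Set S := φ ⁻¹' ball l t with hA
  have hAm : MeasurableSet A := hφ isOpen_ball.measurableSet
  have hmem : MemLp (A.indicator u) 2 μ := (Lp.memLp u).indicator hAm
  have hxe : ⇑(hmem.toLp _) =ᵐ[μ] A.indicator u := hmem.coeFn_toLp
  set x : Lp ℂ 2 μ := hmem.toLp _ with hx
  set g : S → ℝ := A.indicator (fun s => ‖u s‖ ^ 2) with hg
  have hsq : Integrable (fun s => ‖u s‖ ^ 2) μ :=
    (memLp_two_iff_integrable_sq_norm (Lp.aestronglyMeasurable u)).1 (Lp.memLp u)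
  have hgi : Integrable g μ := hsq.indicator hAm
  have hg0 : ∀ s, 0 ≤ g s := fun s => indicator_nonneg (fun s _ => by positivity) s
  have hgA : ∀ s, s ∉ A → g s = 0 := fun s hs => indicator_of_notMem hs _
  have hct : ∀ z, ct φ x u z = ∫ s, (g s : ℂ) * (z - φ s)⁻¹ ∂μ := by
    intro z
    unfold ct
    refine integral_congr_ae ?_
    filter_upwards [hxe] with s hs
    rw [hs]
    by_cases h : s ∈ A
    · rw [hg, indicator_of_mem h, indicator_of_mem h, Complex.conj_mul']
      push_cast
      rfl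
    · rw [hg, indicator_of_notMem h, indicator_of_notMem h]
      simp
  have hmeas : ∀ z, AEStronglyMeasurable (fun s => (g s : ℂ) * (z - φ s)⁻¹) μ := fun z =>
    (Complex.continuous_ofReal.comp_aestronglyMeasurable hgi.aestronglyMeasurable).mul
      (measurable_const.sub hφ).inv.aestronglyMeasurable
  -- integrability away from the disc
  have hint : ∀ (z : ℂ) (d : ℝ), 0 < d → (∀ s ∈ A, d ≤ ‖z - φ s‖) →
      Integrable (fun s => (g s : ℂ) * (z - φ s)⁻¹) μ := by
    intro z d hd h
    refine (hgi.mul_const d⁻¹).mono' (hmeas z) (Eventually.of_forall fun s => ?_)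
    rw [norm_mul, norm_inv, Complex.norm_real, Real.norm_of_nonneg (hg0 s)]
    by_cases hs : s ∈ A
    · exact mul_le_mul_of_nonneg_left (inv_anti₀ hd (h s hs)) (hg0 s)
    · rw [hgA s hs, zero_mul, zero_mul]
  refine ⟨x, ?_, ?_, ?_⟩
  · filter_upwards [hxe] with s hs h
    rw [hs, indicator_of_notMem (show s ∉ A from h)]
  · intro z hz h0
    rw [hct] at h0
    have hF := hint z t ht (fun s hs => by
      have hs' : ‖φ s - l‖ < t := by
        rw [← dist_eq_norm]
        exact hs
      have : ‖z - l‖ ≤ ‖z - φ s‖ + ‖φ s - l‖ := by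
        have e : z - l = (z - φ s) + (φ s - l) := by ring
        rw [e]
        exact norm_add_le _ _
      linarith)
    have hF' := hF.const_mul (z - l)
    have h1 : ∫ s, ((z - l) * ((g s : ℂ) * (z - φ s)⁻¹)).re ∂μ = 0 := by
      have h2 := Complex.reCLM.integral_comp_comm hF'
      simp only [Complex.reCLM_apply] at h2
      rw [h2, integral_const_mul, h0, mul_zero, Complex.zero_re]
    have h3 : ∀ s, ((z - l) * ((g s : ℂ) * (z - φ s)⁻¹)).re =
        g s * ((z - l) * (z - φ s)⁻¹).re := by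
      intro s
      have e : (z - l) * ((g s : ℂ) * (z - φ s)⁻¹) = (g s : ℂ) * ((z - l) * (z - φ s)⁻¹) := by
        ring
      rw [e, Complex.re_ofReal_mul]
    have hpos : ∀ s ∈ A, 0 < ((z - l) * (z - φ s)⁻¹).re := fun s hs =>
      re_pos hz (by rw [← dist_eq_norm]; exact hs)
    have h4 : ∀ s, 0 ≤ ((z - l) * ((g s : ℂ) * (z - φ s)⁻¹)).re := by
      intro s
      rw [h3]
      by_cases hs : s ∈ A
      · exact mul_nonneg (hg0 s) (hpos s hs).le
      · rw [hgA s hs, zero_mul]
    have h5 := (integral_eq_zero_iff_of_nonneg (μ := μ) h4 hF'.re).1 h1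
    apply hl t ht
    filter_upwards [h5] with s hs hsA
    have h6 : g s * ((z - l) * (z - φ s)⁻¹).re = 0 := by
      rw [← h3]
      exact hs
    have h7 : g s = 0 := by
      rcases mul_eq_zero.1 h6 with h | h
      · exact h
      · exact absurd h (hpos s hsA).ne'
    rw [hg, indicator_of_mem (show s ∈ A from hsA)] at h7
    exact norm_eq_zero.1 (pow_eq_zero_iff two_ne_zero |>.1 h7)
  · intro z₀ hz₀
    have hz₀' : t < ‖z₀ - l‖ := hz₀
    have hfun : ct φ x u = fun z => ∫ s, (g s : ℂ) * (z - φ s)⁻¹ ∂μ := funext hct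
    rw [hfun]
    obtain ⟨d, hd⟩ : ∃ d : ℝ, d = (‖z₀ - l‖ - t) / 2 := ⟨_, rfl⟩
    have hd0 : 0 < d := by
      rw [hd]
      linarith
    have hk : ∀ s ∈ A, ∀ z ∈ ball z₀ d, d ≤ ‖z - φ s‖ := by
      intro s hs z hz
      have hs' : ‖φ s - l‖ < t := by
        rw [← dist_eq_norm]
        exact hs
      have hz' : ‖z₀ - z‖ < d := by
        rw [← dist_eq_norm, dist_comm]
        exact hz
      have : ‖z₀ - l‖ ≤ ‖z₀ - z‖ + ‖z - φ s‖ + ‖φ s - l‖ := by
        have e : z₀ - l = (z₀ - z) + (z - φ s) + (φ s - l) := by ring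
        rw [e]
        exact norm_add₃_le
      linarith
    have hmain := hasDerivAt_integral_of_dominated_loc_of_deriv_le (μ := μ)
      (F := fun (z : ℂ) (s : S) => (g s : ℂ) * (z - φ s)⁻¹)
      (F' := fun (z : ℂ) (s : S) => (g s : ℂ) * (-1 / (z - φ s) ^ 2))
      (bound := fun s => g s * (1 / d ^ 2)) (x₀ := z₀) (s := ball z₀ d)
      (ball_mem_nhds z₀ hd0) (Eventually.of_forall hmeas)
      (hint z₀ d hd0 fun s hs => hk s hs z₀ (mem_ball_self hd0))
      ((Complex.continuous_ofReal.comp_aestronglyMeasurable hgi.aestronglyMeasurable).mul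
        (measurable_const.div ((measurable_const.sub hφ).pow_const 2)).aestronglyMeasurable)
      (Eventually.of_forall fun s z hz => by
        rw [norm_mul, norm_div, norm_neg, norm_one, norm_pow, Complex.norm_real,
          Real.norm_of_nonneg (hg0 s)]
        by_cases hs : s ∈ A
        · refine mul_le_mul_of_nonneg_left ?_ (hg0 s)
          exact one_div_le_one_div_of_le (by positivity)
            (pow_le_pow_left₀ hd0.le (hk s hs z hz) 2)
        · rw [hgA s hs, zero_mul, zero_mul])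
      (hgi.mul_const _)
      (Eventually.of_forall fun s z hz => by
        by_cases hs : s ∈ A
        · have hne : z - φ s ≠ 0 := by
            intro h
            have := hk s hs z hz
            rw [h, norm_zero] at this
            linarith
          exact (((hasDerivAt_id z).sub_const (φ s)).inv hne).const_mul _
        · rw [hgA s hs]
          simpa using hasDerivAt_const z (0 : ℂ))
    exact hmain.2.differentiableAt.differentiableWithinAt

end Pool.Agent.Y528.RO
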